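import Pool.Agent.MP_5d9b3c_ag.H21.ResAux

/-! Principalisation of plane ideals by blowing up rational points. -/

namespace Pool.Agent.MP_5d9b3c_ag.H21

open MvPolynomial H72

variable {K : Type} [Field K] {r : ℕ}

theorem cc_ne_of_dvd {a b : RK K} (h : a ∣ b) (hb : constantCoeff b ≠ 0) : constantCoeff a ≠ 0 :=
  fun h0 => hb (by obtain ⟨c, rfl⟩ := h; simp [h0])

theorem fac {p q G u : RK K} {A B : ℕ} (hp : Prime p) (hq : Prime q) (hu : constantCoeff u ≠ 0)
    (h : G ∣ u * p ^ A * q ^ B) : ∃ a b G', G = p ^ a * q ^ b * G' ∧ constantCoeff G' ≠ 0 := by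
  obtain ⟨G0, G3, h0, h3, rfl⟩ := exists_dvd_and_dvd_of_dvd_mul h
  obtain ⟨G1, G2, h1, h2, rfl⟩ := exists_dvd_and_dvd_of_dvd_mul h0
  obtain ⟨a, -, v, hv⟩ := (dvd_prime_pow hp A).mp h2
  obtain ⟨b, -, w, hw⟩ := (dvd_prime_pow hq B).mp h3
  refine ⟨a, b, G1 * ↑v⁻¹ * ↑w⁻¹, ?_, ?_⟩
  · rw [← hv, ← hw]
    linear_combination (-G1 * G2 * G3 * ↑w * ↑w⁻¹) * v.mul_inv - (G1 * G2 * G3) * w.mul_inv
  · rw [map_mul, map_mul]
    exact mul_ne_zero (mul_ne_zero (cc_ne_of_dvd h1 hu) ((v⁻¹).isUnit.map _).ne_zero)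
      ((w⁻¹).isUnit.map _).ne_zero

theorem leaf_mono {G u : RK K} {A B : ℕ} (g : Fin r → RK K) (k l : ℕ)
    (hg : ∃ i, constantCoeff (g i) ≠ 0) (hu : constantCoeff u ≠ 0)
    (h : G ∣ u * X 0 ^ A * X 1 ^ B) : Res (fun i => G * g i) k l := by
  obtain ⟨a, b, G', rfl, hG⟩ := fac X_prime X_prime hu h
  obtain ⟨i, hi⟩ := hg
  exact Res.mono _ k l a b (fun i => G' * g i) (fun i => by ring) ⟨i, by simp [hG, hi]⟩

theorem leaf_curve {G u z : RK K} {A B : ℕ} (g : Fin r → RK K) (k : ℕ)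
    (hg : ∃ i, constantCoeff (g i) ≠ 0) (hu : constantCoeff u ≠ 0) (h0 : constantCoeff z = 0)
    (h1 : constantCoeff (pderiv 1 z) ≠ 0) (h : G ∣ u * X 0 ^ A * z ^ B) :
    Res (fun i => G * g i) k 0 := by
  have hz : z ≠ 0 := fun h => h1 (by simp [h])
  obtain ⟨F, hF, v, hv⟩ := UniqueFactorizationMonoid.exists_prime_factors z hz
  have h2 : (F.map constantCoeff).prod = 0 := by
    rw [← map_multiset_prod]
    rw [← hv, map_mul] at h0
    exact (mul_eq_zero.mp h0).resolve_right (v.isUnit.map _).ne_zero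
  obtain ⟨q, hqF, hq0⟩ := Multiset.mem_map.mp (Multiset.prod_eq_zero_iff.mp h2)
  obtain ⟨w, rfl⟩ : q ∣ z := (Multiset.dvd_prod hqF).trans ⟨v, hv.symm⟩
  have h3 : constantCoeff (pderiv 1 q) ≠ 0 ∧ constantCoeff w ≠ 0 := by
    simpa [Derivation.leibniz, hq0, and_comm] using h1
  obtain ⟨a, b, G', rfl, hG⟩ := fac (u := u * w ^ B) (A := A) (B := B) (X_prime (i := 0))
    (hF q hqF) (by simp [hu, h3.2]) (h.trans ⟨1, by ring⟩)
  obtain ⟨i, hi⟩ := hg
  exact Res.curve _ k a b q (fun i => G' * g i) hq0 h3.1 (fun i => by ring) ⟨i, by simp [hG, hi]⟩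

/-- principal ideals supported on the axes and on `s = 0` are resolved -/
def Q2 (r : ℕ) (s : RK K) : Prop :=
  ∀ (G u : RK K) (g : Fin r → RK K) (k l N : ℕ), G ≠ 0 → (∃ i, constantCoeff (g i) ≠ 0) →
    constantCoeff u ≠ 0 → G ∣ u * (X 0 * X 1 * s) ^ N → Res (fun i => G * g i) k l

/-- the same without the second axis -/
def Q0 (r : ℕ) (s : RK K) : Prop :=
  ∀ (G u : RK K) (g : Fin r → RK K) (k N : ℕ), G ≠ 0 → (∃ i, constantCoeff (g i) ≠ 0) →
    constantCoeff u ≠ 0 → G ∣ u * (X 0 * s) ^ N → Res (fun i => G * g i) k 0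

theorem Q2.q0 {s : RK K} (h : Q2 r s) : Q0 r s := fun G u g k N hG hg hu hd =>
  h G u g k 0 N hG hg hu (hd.trans ⟨X 1 ^ N, by ring⟩)

variable [CharZero K]

open Classical in
theorem child (c : K) {G u s s' : RK K} {g : Fin r → RK K} {N d : ℕ} (hG : G ≠ 0)
    (hg : ∃ i, constantCoeff (g i) ≠ 0) (hu : constantCoeff u ≠ 0)
    (hd : G ∣ u * (X 0 * X 1 * s) ^ N) (hs : ch c s = X 0 ^ d * s') (h2 : c = 0 → Q2 r s')
    (h0 : c ≠ 0 → Q0 r s') (k l : ℕ) :
    Res (fun i => ch c (G * g i)) k (if c = 0 then l else 0) := by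
  have h1 := map_dvd (ch c) hd
  simp only [map_mul, map_pow, ch_X0, ch_X1, hs] at h1 ⊢
  have hg' : ∃ i, constantCoeff (ch c (g i)) ≠ 0 := by simpa using hg
  split_ifs with hc
  · refine h2 hc _ (ch c u) _ k l ((d + 2) * N) (ch_ne hG c) hg' (by simpa using hu)
      (h1.trans (mul_dvd_mul_left _ ?_))
    rw [pow_mul]
    exact pow_dvd_pow_of_dvd ⟨X 1 ^ (d + 1) * s' ^ (d + 1), by rw [hc, map_zero]; ring⟩ N
  · refine h0 hc _ (ch c u * (X 1 + C c) ^ N) _ k ((d + 2) * N) (ch_ne hG c) hg'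
      (by simp [hu, hc]) (h1.trans ?_)
    rw [pow_mul, mul_assoc (ch c u), ← mul_pow]
    exact mul_dvd_mul_left _ (pow_dvd_pow_of_dvd ⟨s' ^ (d + 1), by ring⟩ N)

theorem blow2 {s : RK K}
    (h1 : ∀ c : K, ∃ s' d, ch c s = X 0 ^ d * s' ∧ (c = 0 → Q2 r s') ∧ (c ≠ 0 → Q0 r s'))
    (h2 : ∀ c : K, ∃ s' d, ch c (sw s) = X 0 ^ d * s' ∧ (c = 0 → Q2 r s') ∧ (c ≠ 0 → Q0 r s')) :
    Q2 r s := by
  intro G u g k l N hG hg hu hd
  by_cases h0 : constantCoeff G = 0
  · refine Res.blow _ k l (fun i => by simp [h0]) ?_ (fun c => ?_) (fun c => ?_)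
    · obtain ⟨i, hi⟩ := hg
      exact ⟨i, mul_ne_zero hG fun h => hi (by simp [h])⟩
    · obtain ⟨s', d, a1, a2, a3⟩ := h1 c
      exact child c hG hg hu hd a1 a2 a3 _ _
    · obtain ⟨s', d, a1, a2, a3⟩ := h2 c
      have h3 := map_dvd sw hd
      simp only [map_mul, map_pow, sw_X0, sw_X1] at h3
      rw [mul_comm (X 1) (X 0)] at h3
      have h4 := child c (g := fun i => sw (g i)) (sw_ne hG) (by simpa using hg)
        (by simpa using hu) h3 a1 a2 a3 (l + k + 1) k
      simpa only [map_mul] using h4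
  · exact leaf_mono (A := 0) (B := 0) g k l hg h0 (by simp)

omit [CharZero K] in
theorem dec (g : RK K) : ∃ a b, g = C (constantCoeff g) + X 0 * a + X 1 * b := by
  induction g using MvPolynomial.induction_on with
  | C a => exact ⟨0, 0, by simp⟩
  | add p q hp hq =>
    obtain ⟨a, b, h⟩ := hp
    obtain ⟨a', b', h'⟩ := hq
    exact ⟨a + a', b + b', by rw [map_add, map_add]; linear_combination h + h'⟩
  | mul_X p i _ =>
    fin_cases i
    · exact ⟨p, 0, by simp [mul_comm]⟩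
    · exact ⟨0, p, by simp [mul_comm]⟩

/-- `s` vanishes at the origin with the given linear part -/
def Lin (s : RK K) (α β : K) : Prop :=
  ∃ a b e : RK K, s = C α * X 0 + C β * X 1 + X 0 ^ 2 * a + X 0 * X 1 * b + X 1 ^ 2 * e

omit [CharZero K] in
theorem exists_lin {s : RK K} (h : constantCoeff s = 0) : ∃ α β, Lin s α β := by
  obtain ⟨a, b, h1⟩ := dec s
  obtain ⟨a1, a2, h2⟩ := dec a
  obtain ⟨b1, b2, h3⟩ := dec b
  refine ⟨constantCoeff a, constantCoeff b, a1, a2 + b1, b2, ?_⟩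
  rw [h, map_zero] at h1
  linear_combination h1 + X 0 * h2 + X 1 * h3

omit [CharZero K] in
theorem Lin.sw {s : RK K} {α β : K} (h : Lin s α β) : Lin (sw s) β α := by
  obtain ⟨a, b, e, rfl⟩ := h
  exact ⟨H72.sw e, H72.sw b, H72.sw a, by simp; ring⟩

omit [CharZero K] in
theorem Lin.ch {s : RK K} {α β : K} (h : Lin s α β) (c : K) : ∃ s', ch c s = X 0 ^ 1 * s' ∧
    constantCoeff s' = α + β * c ∧ constantCoeff (pderiv 1 s') = β := by
  obtain ⟨a, b, e, rfl⟩ := h
  refine ⟨C α + C β * (X 1 + C c) + X 0 * (H72.ch c a + (X 1 + C c) * H72.ch c b +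
    (X 1 + C c) ^ 2 * H72.ch c e), by simp; ring, by simp, ?_⟩
  simp [Derivation.leibniz]

omit [CharZero K] in
theorem Lin.der {s : RK K} {α β : K} (h : Lin s α β) : constantCoeff (pderiv 1 s) = β := by
  obtain ⟨a, b, e, rfl⟩ := h
  simp [Derivation.leibniz]

omit [CharZero K] in
theorem Lin.mem {s : RK K} (h : Lin s 0 0) : s ∈ mm K ^ 2 := by
  obtain ⟨a, b, e, rfl⟩ := h
  have h0 : X 0 ∈ mm K := Ideal.subset_span ⟨0, rfl⟩
  have h1 : X 1 ∈ mm K := Ideal.subset_span ⟨1, rfl⟩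
  simp only [map_zero, zero_mul, zero_add]
  refine add_mem (add_mem (Ideal.mul_mem_right _ _ (Ideal.pow_mem_pow h0 2))
    (Ideal.mul_mem_right _ _ ?_)) (Ideal.mul_mem_right _ _ (Ideal.pow_mem_pow h1 2))
  rw [sq]
  exact Ideal.mul_mem_mul h0 h1

omit [CharZero K] in
theorem Q2_unit {s : RK K} (h : constantCoeff s ≠ 0) : Q2 r s := fun G u g k l N _ hg hu hd =>
  leaf_mono (u := u * s ^ N) (A := N) (B := N) g k l hg (by simp [hu, h]) (hd.trans ⟨1, by ring⟩)

omit [CharZero K] in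
theorem Q0_smooth {s : RK K} (h : constantCoeff s ≠ 0 ∨ constantCoeff (pderiv 1 s) ≠ 0) :
    Q0 r s := by
  by_cases h0 : constantCoeff s = 0
  · exact fun G u g k N _ hg hu hd => leaf_curve (A := N) (B := N) g k hg hu h0
      (h.resolve_left (not_not.mpr h0)) (hd.trans ⟨1, by ring⟩)
  · exact (Q2_unit h0).q0

theorem Q2_smooth {s : RK K} (h : constantCoeff s ≠ 0 ∨ constantCoeff (pderiv 1 s) ≠ 0) :
    Q2 r s := by
  have key : ∀ (ν : ℕ) (s : RK K), constantCoeff (pderiv 1 s) ≠ 0 →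
      ¬ Polynomial.X ^ ν ∣ e1 s → Q2 r s := by
    intro ν
    induction ν with
    | zero => intro s _ h; simp at h
    | succ ν ih =>
      intro s h1 h2
      by_cases h0 : constantCoeff s = 0
      swap
      · exact Q2_unit h0
      obtain ⟨α, β, hl⟩ := exists_lin h0
      rw [hl.der] at h1
      refine blow2 (fun c => ?_) (fun c => ?_)
      · obtain ⟨s', a1, -, a3⟩ := hl.ch c
        refine ⟨s', 1, a1, fun hc => ih s' (a3 ▸ h1) fun h3 => h2 ?_,
          fun _ => Q0_smooth (Or.inr (a3 ▸ h1))⟩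
        rw [← e1_ch, ← hc, a1, map_mul, map_pow, e1_X0, pow_one, pow_succ']
        exact mul_dvd_mul_left _ h3
      · obtain ⟨s', a1, a2, a3⟩ := hl.sw.ch c
        refine ⟨s', 1, a1, fun hc => Q2_unit (by simpa [a2, hc] using h1),
          fun _ => Q0_smooth ?_⟩
        rw [a2, a3]
        by_cases hα : α = 0
        · exact Or.inl (by simpa [hα] using h1)
        · exact Or.inr hα
  rcases h with h | h
  · exact Q2_unit h
  by_cases he : e1 s = 0
  · obtain ⟨w, hw⟩ := sub_e1 s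
    rw [he, map_zero, sub_zero] at hw
    subst hw
    have hw0 : constantCoeff w ≠ 0 := by simpa [Derivation.leibniz] using h
    exact fun G u g k l N _ hg hu hd => leaf_mono (u := u * w ^ N) (A := N) (B := 2 * N) g k l hg
      (by simp [hu, hw0]) (hd.trans ⟨1, by ring⟩)
  · refine key ((e1 s).natDegree + 1) s h fun hd => ?_
    have := Polynomial.natDegree_le_of_dvd hd he
    rw [Polynomial.natDegree_X_pow] at this
    omega

theorem Q2_base {s : RK K} (h : s ∉ mm K ^ 2) : Q2 r s := by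
  by_cases h0 : constantCoeff s = 0
  swap
  · exact Q2_unit h0
  obtain ⟨α, β, hl⟩ := exists_lin h0
  have key : ∀ {t : RK K} {α β : K}, Lin t α β → (α ≠ 0 ∨ β ≠ 0) → ∀ c : K,
      ∃ s' d, ch c t = X 0 ^ d * s' ∧ (c = 0 → Q2 r s') ∧ (c ≠ 0 → Q0 r s') := by
    intro t α β hl hne c
    obtain ⟨s', a1, a2, a3⟩ := hl.ch c
    have : Q2 r s' := by
      apply Q2_smooth
      rw [a2, a3]
      by_cases hβ : β = 0
      · exact Or.inl (by simpa [hβ] using hne)
      · exact Or.inr hβ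
    exact ⟨s', 1, a1, fun _ => this, fun _ => this.q0⟩
  have hne : α ≠ 0 ∨ β ≠ 0 := by
    by_contra hn
    push Not at hn
    rw [hn.1, hn.2] at hl
    exact h hl.mem
  exact blow2 (key hl hne) (key hl.sw hne.symm)

omit [CharZero K] in
theorem pderiv_ch (c : K) (s : RK K) :
    pderiv 0 (ch c s) = ch c (pderiv 0 s) + (X 1 + C c) * ch c (pderiv 1 s) ∧
      pderiv 1 (ch c s) = X 0 * ch c (pderiv 1 s) := by
  induction s using MvPolynomial.induction_on with
  | C a => simp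
  | add p q hp hq => simp only [map_add, hp.1, hp.2, hq.1, hq.2]; constructor <;> ring
  | mul_X p i hp =>
    fin_cases i
    · simp [Derivation.leibniz, hp.1, hp.2]
      ring
    · simp [Derivation.leibniz, hp.1, hp.2]
      constructor <;> ring

omit [CharZero K] in
theorem pderiv_sw (s : RK K) :
    pderiv 0 (sw s) = sw (pderiv 1 s) ∧ pderiv 1 (sw s) = sw (pderiv 0 s) := by
  induction s using MvPolynomial.induction_on with
  | C a => simp
  | add p q hp hq => simp only [map_add, hp.1, hp.2, hq.1, hq.2, and_self]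
  | mul_X p i hp => fin_cases i <;> simp [Derivation.leibniz, hp.1, hp.2]

theorem not_dvd_pderiv {q : RK K} (hq : Prime q) : ¬ ∀ j, q ∣ pderiv j q := by
  classical
  intro h
  have h1 : ∀ j, pderiv j q = 0 := by
    intro j
    by_contra h0
    have h2 := totalDegree_le_of_dvd_of_isDomain (h j) h0
    obtain ⟨x, hx, hx'⟩ := Finset.exists_mem_eq_sup _ (support_nonempty.mpr h0)
      fun s : Fin 2 →₀ ℕ => s.sum fun _ e => e
    have h3 : x + Finsupp.single j 1 ∈ q.support := by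
      rw [mem_support_iff] at hx ⊢
      rw [coeff_pderiv] at hx
      exact left_ne_zero_of_mul hx
    have h4 := le_totalDegree h3
    rw [Finsupp.sum_add_index' (fun _ => rfl) (fun _ _ _ => rfl), Finsupp.sum_single_index rfl,
      ← hx'] at h4
    change totalDegree (pderiv j q) + 1 ≤ _ at h4
    omega
  have h2 : q = C (coeff 0 q) := by
    ext x
    rw [coeff_C]
    split_ifs with hx
    · rw [hx]
    · obtain ⟨j, hj⟩ : ∃ j, x j ≠ 0 := by
        by_contra hn
        push Not at hn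
        exact hx (Finsupp.ext hn).symm
      have h3 := congrArg (coeff (x - Finsupp.single j 1)) (h1 j)
      rw [coeff_pderiv, tsub_add_cancel_of_le
        (Finsupp.single_le_iff.mpr (Nat.one_le_iff_ne_zero.mpr hj)), coeff_zero] at h3
      exact (mul_eq_zero.mp h3).resolve_right (Nat.cast_add_one_ne_zero _)
  apply hq.not_isUnit
  rw [h2]
  exact (IsUnit.mk0 _ fun h0 => hq.ne_zero (by rw [h2, h0, map_zero])).map C

theorem Q2_squarefree {s : RK K} (hs : Squarefree s) : Q2 r s := by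
  let J : (Unit → RK K) → Ideal (RK K) := fun h =>
    Ideal.span {h (), pderiv 0 (h ()), pderiv 1 (h ())}
  have m1 : ∀ h, h () ∈ J h := fun h => Ideal.subset_span (by simp)
  have m2 : ∀ h, pderiv 0 (h ()) ∈ J h := fun h => Ideal.subset_span (by simp)
  have m3 : ∀ h, pderiv 1 (h ()) ∈ J h := fun h => Ideal.subset_span (by simp)
  have hP : ∀ j, ∃ ρ, PP (J fun _ => s) j ρ := by
    apply PP_of_coprime
    intro q hq hle
    obtain ⟨t, rfl⟩ := Ideal.mem_span_singleton.mp (hle (m1 fun _ => s))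
    have ht : ¬ q ∣ t := fun h => hq.not_isUnit (hs q (mul_dvd_mul_left q h))
    apply not_dvd_pderiv hq
    intro j
    have h1 : q ∣ pderiv j (q * t) := by
      fin_cases j
      · exact Ideal.mem_span_singleton.mp (hle (m2 fun _ => q * t))
      · exact Ideal.mem_span_singleton.mp (hle (m3 fun _ => q * t))
    rw [Derivation.leibniz, smul_eq_mul, smul_eq_mul, dvd_add_right (dvd_mul_right _ _)] at h1
    exact (hq.dvd_or_dvd h1).resolve_left ht
  refine terminate J 2 (fun h => Q2 r (h ())) (fun h _ => m1 h) (fun h u hu => ?_)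
    (fun h h' d c hd e u hu => ?_) (fun h ⟨_, hi⟩ => Q2_base hi)
    (fun h d _ _ _ h1 h2 => blow2 (fun c => ?_) (fun c => ?_)) one_le_two (fun _ => s)
    ⟨(), hs.ne_zero⟩ (hP 0) (hP 1)
  · have : J h ≤ (J fun i => sw (h i)).comap sw := by
      rw [Ideal.span_le]
      rintro _ (rfl | rfl | rfl)
      · exact m1 fun i => sw (h i)
      · rw [SetLike.mem_coe, Ideal.mem_comap, ← (pderiv_sw _).2]
        exact m3 fun i => sw (h i)
      · rw [SetLike.mem_coe, Ideal.mem_comap, ← (pderiv_sw _).1]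
        exact m2 fun i => sw (h i)
    exact this hu
  · obtain ⟨d, rfl⟩ := Nat.exists_eq_add_of_le' hd
    obtain ⟨p0, p1⟩ := pderiv_ch c (h ())
    rw [e ()] at p0 p1
    have q1 : ch c (pderiv 1 (h ())) = X 0 * (X 0 ^ d * pderiv 1 (h' ())) := by
      apply mul_left_cancel₀ (X_ne_zero (R := K) (0 : Fin 2))
      rw [← p1]
      simp [Derivation.leibniz]
      ring
    have : J h ≤ (Ideal.span {X 0} * J h').comap (ch c) := by
      rw [Ideal.span_le]
      rintro _ (rfl | rfl | rfl) <;> refine Ideal.mem_span_singleton_mul.mpr ?_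
      · exact ⟨X 0 ^ (d + 1) * h' (), Ideal.mul_mem_left _ _ (m1 h'), by rw [e ()]; ring⟩
      · refine ⟨((d : RK K) + 2) * X 0 ^ d * h' () + X 0 ^ (d + 1) * pderiv 0 (h' ()) -
          (X 1 + C c) * X 0 ^ d * pderiv 1 (h' ()),
          sub_mem (add_mem (Ideal.mul_mem_left _ _ (m1 h'))
            (Ideal.mul_mem_left _ _ (m2 h'))) (Ideal.mul_mem_left _ _ (m3 h')), ?_⟩
        rw [← sub_eq_iff_eq_add.mpr p0, q1]
        simp [Derivation.leibniz]
        ring
      · exact ⟨X 0 ^ d * pderiv 1 (h' ()), Ideal.mul_mem_left _ _ (m3 h'), q1.symm⟩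
    obtain ⟨w, hw, e'⟩ := Ideal.mem_span_singleton_mul.mp (this hu)
    exact ⟨w, hw, e'.symm⟩
  · obtain ⟨h', a1, a2⟩ := h1 c
    exact ⟨h' (), d, a1 (), fun _ => a2, fun _ => a2.q0⟩
  · obtain ⟨h', a1, a2⟩ := h2 c
    exact ⟨h' (), d, a1 (), fun _ => a2, fun _ => a2.q0⟩

theorem res_unit {G : RK K} (hG : G ≠ 0) (g : Fin r → RK K) (hg : ∃ i, constantCoeff (g i) ≠ 0)
    (k l : ℕ) : Res (fun i => G * g i) k l := by
  obtain ⟨s, n, hs, -, hd⟩ := exists_squarefree_dvd_pow_of_ne_zero hG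
  exact Q2_squarefree hs G 1 g k l n hG hg (by simp) (hd.trans ⟨(X 0 * X 1) ^ n, by ring⟩)

theorem res_coprime (h : Fin r → RK K) (hne : ∃ i, h i ≠ 0)
    (hc : ∀ q : RK K, Prime q → ¬ ∀ i, q ∣ h i) :
    ∀ G : RK K, G ≠ 0 → ∀ k l, Res (fun i => G * h i) k l := by
  have hP : ∀ j, ∃ ρ, PP (Ideal.span (Set.range h)) j ρ :=
    PP_of_coprime _ fun q hq hle => hc q hq fun i =>
      Ideal.mem_span_singleton.mp (hle (Ideal.subset_span ⟨i, rfl⟩))
  refine terminate (fun h => Ideal.span (Set.range h)) 1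
    (fun h => ∀ G : RK K, G ≠ 0 → ∀ k l, Res (fun i => G * h i) k l)
    (fun h i => Ideal.subset_span ⟨i, rfl⟩) (fun h u hu => ?_) (fun h h' d c hd e u hu => ?_)
    (fun h ⟨i, hi⟩ G hG k l => res_unit hG h ⟨i, fun h0 => hi (mem_one_iff.mpr h0)⟩ k l)
    (fun h d hd hm ⟨i, hi⟩ h1 h2 G hG k l => ?_) le_rfl h hne (hP 0) (hP 1)
  · have : Ideal.span (Set.range h) ≤ (Ideal.span (Set.range fun i => sw (h i))).comap sw := by
      rw [Ideal.span_le]
      rintro _ ⟨i, rfl⟩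
      exact Ideal.subset_span ⟨i, rfl⟩
    exact this hu
  · obtain ⟨d, rfl⟩ := Nat.exists_eq_add_of_le' hd
    have : Ideal.span (Set.range h) ≤
        (Ideal.span {X 0} * Ideal.span (Set.range h')).comap (ch c) := by
      rw [Ideal.span_le]
      rintro _ ⟨i, rfl⟩
      exact Ideal.mem_span_singleton_mul.mpr ⟨X 0 ^ d * h' i,
        Ideal.mul_mem_left _ _ (Ideal.subset_span ⟨i, rfl⟩), by rw [e i]; ring⟩
    obtain ⟨w, hw, e'⟩ := Ideal.mem_span_singleton_mul.mp (this hu)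
    exact ⟨w, hw, e'.symm⟩
  · refine Res.blow _ k l (fun i => ?_) ⟨i, mul_ne_zero hG hi⟩ (fun c => ?_) (fun c => ?_)
    · rw [map_mul, mem_one_iff.mp (Ideal.pow_le_pow_right hd (hm i)), mul_zero]
    · obtain ⟨h', a1, a2⟩ := h1 c
      simp only [map_mul, a1, ← mul_assoc]
      exact a2 _ (mul_ne_zero (ch_ne hG c) (pow_ne_zero _ (X_ne_zero _))) _ _
    · obtain ⟨h', a1, a2⟩ := h2 c
      simp only [map_mul, a1, ← mul_assoc]
      exact a2 _ (mul_ne_zero (ch_ne (sw_ne hG) c) (pow_ne_zero _ (X_ne_zero _))) _ _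

theorem resA : AStmt := by
  intro K _ _ r f k l ⟨i, hi⟩
  classical
  let _ : StrongNormalizationMonoid (RK K) := UniqueFactorizationMonoid.strongNormalizationMonoid
  let _ : NormalizedGCDMonoid (RK K) := UniqueFactorizationMonoid.toNormalizedGCDMonoid _
  obtain ⟨h, h1, h2⟩ := Finset.extract_gcd f (s := Finset.univ) ⟨i, Finset.mem_univ i⟩
  have h3 : f = fun i => Finset.univ.gcd f * h i := funext fun i => h1 i (Finset.mem_univ i)
  have h4 := h1 i (Finset.mem_univ i)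
  rw [h3]
  refine res_coprime h ⟨i, fun h0 => hi (by rw [h4, h0, mul_zero])⟩ (fun q hq hd => ?_) _
    (fun h0 => hi (by rw [h4, h0, zero_mul])) k l
  exact hq.not_dvd_one (h2 ▸ Finset.dvd_gcd fun i _ => hd i)

end Pool.Agent.MP_5d9b3c_ag.H21
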