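import Pool.Agent.MP_5d9b3c_ag.H72.Iface

/-! Weak transforms under point blow-ups and an abstract termination lemma. -/

namespace Pool.Agent.MP_5d9b3c_ag.H21

open MvPolynomial H72

variable {K : Type} [Field K]

/-- the ideal of the origin -/
noncomputable abbrev mm (K : Type) [Field K] : Ideal (RK K) := idealOfVars (Fin 2) K

/-- restriction to `x = 0` -/
noncomputable def e0 : RK K →ₐ[K] Polynomial K := aeval ![0, Polynomial.X]

/-- restriction to `y = 0` -/
noncomputable def e1 : RK K →ₐ[K] Polynomial K := aeval ![Polynomial.X, 0]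

@[simp] theorem ch_X0 (c : K) : ch c (X 0) = X 0 := by simp [ch]
@[simp] theorem ch_X1 (c : K) : ch c (X 1) = X 0 * (X 1 + C c) := by simp [ch]
@[simp] theorem sw_X0 : sw (X 0 : RK K) = X 1 := by simp [sw]
@[simp] theorem sw_X1 : sw (X 1 : RK K) = X 0 := by simp [sw]
@[simp] theorem e0_X0 : e0 (X 0 : RK K) = 0 := by simp [e0]
@[simp] theorem e0_X1 : e0 (X 1 : RK K) = Polynomial.X := by simp [e0]
@[simp] theorem e1_X0 : e1 (X 0 : RK K) = Polynomial.X := by simp [e1]
@[simp] theorem e1_X1 : e1 (X 1 : RK K) = 0 := by simp [e1]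
@[simp] theorem ch_C (c a : K) : ch c (C a) = C a := (ch c).commutes a
@[simp] theorem sw_C (a : K) : sw (C a : RK K) = C a := sw.commutes a
@[simp] theorem e0_C (a : K) : e0 (C a : RK K) = Polynomial.C a := e0.commutes a
@[simp] theorem e1_C (a : K) : e1 (C a : RK K) = Polynomial.C a := e1.commutes a

theorem hom_ext {S : Type*} [CommRing S] {φ ψ : RK K →+* S} (hC : ∀ a, φ (C a) = ψ (C a))
    (h0 : φ (X 0) = ψ (X 0)) (h1 : φ (X 1) = ψ (X 1)) (g : RK K) : φ g = ψ g := by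
  have : φ = ψ := ringHom_ext hC fun i => by fin_cases i <;> assumption
  rw [this]

@[simp] theorem cc_ch (c : K) (g : RK K) : constantCoeff (ch c g) = constantCoeff g :=
  hom_ext (φ := constantCoeff.comp (ch c : RK K →+* RK K)) (by simp) (by simp) (by simp) g

@[simp] theorem cc_sw (g : RK K) : constantCoeff (sw g) = constantCoeff g :=
  hom_ext (φ := constantCoeff.comp (sw (K := K) : RK K →+* RK K)) (by simp) (by simp) (by simp) g

@[simp] theorem sw_sw (g : RK K) : sw (sw g) = g :=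
  hom_ext (φ := (sw (K := K) : RK K →+* RK K).comp (sw (K := K) : RK K →+* RK K))
    (ψ := RingHom.id _) (by simp) (by simp) (by simp) g

theorem e1_ch (g : RK K) : e1 (ch 0 g) = e1 g :=
  hom_ext (φ := (e1 (K := K) : RK K →+* Polynomial K).comp (ch (0 : K) : RK K →+* RK K))
    (ψ := (e1 (K := K) : RK K →+* Polynomial K)) (by simp) (by simp) (by simp) g

theorem e1_sw (g : RK K) : e1 (sw g) = e0 g :=
  hom_ext (φ := (e1 (K := K) : RK K →+* Polynomial K).comp (sw (K := K) : RK K →+* RK K))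
    (ψ := (e0 (K := K) : RK K →+* Polynomial K)) (by simp) (by simp) (by simp) g

theorem eval_e1 (g : RK K) : (e1 g).eval 0 = constantCoeff g :=
  hom_ext (φ := (Polynomial.evalRingHom (0 : K)).comp (e1 (K := K) : RK K →+* Polynomial K))
    (ψ := constantCoeff) (by simp) (by simp) (by simp) g

theorem cc_aeval (p : Polynomial K) (j : Fin 2) :
    constantCoeff (Polynomial.aeval (X j : RK K) p) = p.eval 0 := by
  induction p using Polynomial.induction_on' with
  | add p q hp hq => simp [hp, hq]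
  | monomial n a => simp [Polynomial.aeval_monomial]

theorem sub_e0 (g : RK K) : X 0 ∣ g - Polynomial.aeval (X 1 : RK K) (e0 g) := by
  rw [← Ideal.mem_span_singleton, ← Ideal.Quotient.eq]
  exact hom_ext (φ := Ideal.Quotient.mk (Ideal.span {X 0}))
    (ψ := (Ideal.Quotient.mk (Ideal.span {X 0})).comp
    ((Polynomial.aeval (X 1 : RK K)).toRingHom.comp (e0 (K := K) : RK K →+* Polynomial K))) (by simp)
    (by simp)
    (by simp) g

theorem sub_e1 (g : RK K) : X 1 ∣ g - Polynomial.aeval (X 0 : RK K) (e1 g) := by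
  rw [← Ideal.mem_span_singleton, ← Ideal.Quotient.eq]
  exact hom_ext (φ := Ideal.Quotient.mk (Ideal.span {X 1}))
    (ψ := (Ideal.Quotient.mk (Ideal.span {X 1})).comp
    ((Polynomial.aeval (X 0 : RK K)).toRingHom.comp (e1 (K := K) : RK K →+* Polynomial K))) (by simp)
    (by simp)
    (by simp) g

theorem map_mm {S : Type*} [CommRing S] (φ : RK K →+* S) (I : Ideal S) (h0 : φ (X 0) ∈ I)
    (h1 : φ (X 1) ∈ I) {n : ℕ} {g : RK K} (hg : g ∈ mm K ^ n) : φ g ∈ I ^ n := by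
  have h : (mm K).map φ ≤ I := by
    rw [Ideal.map_le_iff_le_comap, Ideal.span_le]
    rintro _ ⟨i, rfl⟩
    fin_cases i <;> assumption
  have := Ideal.mem_map_of_mem φ hg
  rw [Ideal.map_pow] at this
  exact Ideal.pow_right_mono h n this

theorem pow_dvd_map {S : Type*} [CommRing S] (φ : RK K →+* S) (a : S) (h0 : a ∣ φ (X 0))
    (h1 : a ∣ φ (X 1)) {n : ℕ} {g : RK K} (hg : g ∈ mm K ^ n) : a ^ n ∣ φ g := by
  rw [← Ideal.mem_span_singleton, ← Ideal.span_singleton_pow]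
  exact map_mm φ _ (Ideal.mem_span_singleton.mpr h0) (Ideal.mem_span_singleton.mpr h1) hg

theorem sw_mem {n : ℕ} {g : RK K} (hg : g ∈ mm K ^ n) : sw g ∈ mm K ^ n :=
  map_mm (sw (K := K) : RK K →+* RK K) (mm K) (Ideal.subset_span ⟨1, sw_X0.symm⟩)
    (Ideal.subset_span ⟨0, sw_X1.symm⟩) hg

theorem mem_one_iff {g : RK K} : g ∈ mm K ^ 1 ↔ constantCoeff g = 0 := by
  rw [mem_pow_idealOfVars_iff', constantCoeff_eq]
  refine ⟨fun h => h 0 (by simp), fun h x hx => ?_⟩
  have : x = 0 := (Finsupp.degree_eq_zero_iff x).mp (by omega)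
  rw [this, h]

theorem aeval_scale {S : Type*} [CommRing S] [Algebra K S] {H : RK K} {d : ℕ}
    (hH : H.IsHomogeneous d) (a : S) (v : Fin 2 → S) :
    aeval (fun i => a * v i) H = a ^ d * aeval v H := by
  classical
  rw [aeval_def, aeval_def, eval₂_eq, eval₂_eq, Finset.mul_sum]
  refine Finset.sum_congr rfl fun s hs => ?_
  have hd : Finsupp.weight 1 s = d := hH (mem_support_iff.mp hs)
  rw [← hd, Finsupp.weight_apply, Finsupp.sum]
  simp only [mul_pow, Finset.prod_mul_distrib, Finset.prod_pow_eq_pow_sum, Pi.one_apply,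
    smul_eq_mul, mul_one]
  ring

theorem dehom_ne [CharZero K] {H : RK K} {d : ℕ} (hH : H.IsHomogeneous d) (h0 : H ≠ 0) (c : K) :
    aeval ![1, Polynomial.X + Polynomial.C c] H ≠ (0 : Polynomial K) := by
  intro h
  apply mul_ne_zero (X_ne_zero (R := K) (0 : Fin 2)) h0
  apply MvPolynomial.funext
  intro v
  rw [map_mul, eval_X, map_zero]
  by_cases hv : v 0 = 0
  · rw [hv, zero_mul]
  have h1 := congrArg (Polynomial.aeval (v 1 / v 0 - c)) h
  rw [map_zero, ← AlgHom.comp_apply, comp_aeval] at h1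
  have h2 : v = fun i => v 0 *
      Polynomial.aeval (v 1 / v 0 - c) (![1, Polynomial.X + Polynomial.C c] i : Polynomial K) := by
    funext i
    fin_cases i
    · simp
    · simp
      field_simp
  rw [← aeval_eq_eval, h2, aeval_scale hH, h1]
  simp

/-- the weak transform -/
theorem weak [CharZero K] {g : RK K} {d : ℕ} (hg : g ∈ mm K ^ d) (c : K) :
    ∃ g', ch c g = X 0 ^ d * g' ∧ (g ∉ mm K ^ (d + 1) → ¬ Polynomial.X ^ (d + 1) ∣ e0 g') := by
  classical
  have hH := homogeneousComponent_isHomogeneous d g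
  have h2 : g - homogeneousComponent d g ∈ mm K ^ (d + 1) := by
    rw [mem_pow_idealOfVars_iff'] at hg ⊢
    intro x hx
    rw [coeff_sub, coeff_homogeneousComponent]
    split_ifs with h
    · exact sub_self _
    · rw [hg x (by omega), sub_zero]
  obtain ⟨w, hw⟩ := pow_dvd_map (ch c : RK K →+* RK K) (X 0) (by simp) (by simp) h2
  have h3 : ch c (homogeneousComponent d g) =
      X 0 ^ d * aeval ![1, X 1 + C c] (homogeneousComponent d g) := by
    rw [← aeval_scale hH, ch]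
    congr 2
    funext i
    fin_cases i <;> simp
  refine ⟨aeval ![1, X 1 + C c] (homogeneousComponent d g) + X 0 * w, ?_, fun hn hd => ?_⟩
  · simp only [RingHom.coe_coe, map_sub] at hw
    rw [mul_add, ← h3]
    linear_combination hw
  · have h4 : e0 (aeval ![1, X 1 + C c] (homogeneousComponent d g) + X 0 * w) =
        aeval ![1, Polynomial.X + Polynomial.C c] (homogeneousComponent d g) := by
      rw [map_add, map_mul, e0_X0, zero_mul, add_zero, ← AlgHom.comp_apply, comp_aeval]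
      congr 2
      funext i
      fin_cases i <;> simp
    rw [h4] at hd
    have h5 : homogeneousComponent d g ≠ 0 := fun h => hn (by simpa [h] using h2)
    have h6 := Polynomial.natDegree_le_of_dvd hd (dehom_ne hH h5 c)
    have h7 := aeval_natDegree_le (n := 1) _ hH.totalDegree_le
      ![1, Polynomial.X + Polynomial.C c] (fun i => by fin_cases i <;> simp)
    rw [Polynomial.natDegree_X_pow] at h6
    omega

theorem exists_order {ι : Type} (h : ι → RK K) (hne : ∃ i, h i ≠ 0) :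
    ∃ d, (∀ i, h i ∈ mm K ^ d) ∧ ∃ i, h i ∉ mm K ^ (d + 1) := by
  classical
  have hex : ∃ d, ∃ i, h i ∉ mm K ^ (d + 1) := by
    obtain ⟨i, hi⟩ := hne
    obtain ⟨x, hx⟩ := ne_zero_iff.mp hi
    exact ⟨x.degree, i, fun h' => hx ((mem_pow_idealOfVars_iff' _ _).mp h' x (by omega))⟩
  refine ⟨Nat.find hex, fun i => ?_, Nat.find_spec hex⟩
  rcases Nat.eq_zero_or_pos (Nat.find hex) with h0 | h0
  · rw [h0]; simp
  · have := Nat.find_min hex (Nat.sub_lt h0 one_pos)
    push Not at this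
    have h1 := this i
    rwa [show Nat.find hex - 1 + 1 = Nat.find hex by omega] at h1

theorem ch_ne [CharZero K] {g : RK K} (hg : g ≠ 0) (c : K) : ch c g ≠ 0 := by
  obtain ⟨d, h1, _, h2⟩ := exists_order (fun _ : Unit => g) ⟨(), hg⟩
  obtain ⟨g', h3, h4⟩ := weak (h1 ()) c
  rw [h3]
  refine mul_ne_zero (pow_ne_zero _ (X_ne_zero _)) fun h => h4 h2 ?_
  simp [h]

theorem sw_ne {g : RK K} (hg : g ≠ 0) : sw g ≠ 0 := fun h => hg (by rw [← sw_sw g, h, map_zero])

/-- a power of the variable `j` lies in the ideal, locally at the origin -/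
def PP (J : Ideal (RK K)) (j : Fin 2) (ρ : ℕ) : Prop :=
  ∃ u : RK K, constantCoeff u ≠ 0 ∧ u * X j ^ ρ ∈ J

theorem PP_y {J : Ideal (RK K)} {g : RK K} (hg : g ∈ J) (h0 : e0 g ≠ 0) {ρ : ℕ} (h : PP J 0 ρ) :
    ∃ σ, PP J 1 σ := by
  obtain ⟨u, hu, hJ⟩ := h
  obtain ⟨p, hp, hp'⟩ := Polynomial.exists_eq_pow_rootMultiplicity_mul_and_not_dvd _ h0 0
  obtain ⟨s, hs⟩ := sub_e0 g
  rw [hp] at hs
  simp only [map_zero, sub_zero, map_mul, map_pow, Polynomial.aeval_X] at hs
  refine ⟨Polynomial.rootMultiplicity 0 (e0 g) * ρ, u * (Polynomial.aeval (X 1 : RK K) p) ^ ρ,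
    ?_, ?_⟩
  · rw [map_mul, map_pow, cc_aeval]
    exact mul_ne_zero hu (pow_ne_zero _ fun h => hp' (Polynomial.dvd_iff_isRoot.mpr h))
  · obtain ⟨w, hw⟩ := sub_dvd_pow_sub_pow (g - X 0 * s) (-(X 0 * s)) ρ
    have h1 : g - X 0 * s =
        X 1 ^ Polynomial.rootMultiplicity 0 (e0 g) * Polynomial.aeval (X 1 : RK K) p := by
      linear_combination hs
    have h2 : u * (Polynomial.aeval (X 1 : RK K) p) ^ ρ *
        X 1 ^ (Polynomial.rootMultiplicity 0 (e0 g) * ρ) =
        (u * w) * g + (-s) ^ ρ * (u * X 0 ^ ρ) := by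
      rw [pow_mul, mul_assoc, ← mul_pow, mul_comm (Polynomial.aeval _ p), ← h1,
        eq_add_of_sub_eq hw, show -(X 0 * s) = X 0 * -s by ring, mul_pow]
      ring
    rw [h2]
    exact J.add_mem (J.mul_mem_left _ hg) (J.mul_mem_left _ hJ)

theorem PP_step {J' : Ideal (RK K)} {u w v : RK K} {ρ : ℕ} (hu : constantCoeff u ≠ 0)
    (hw : w ∈ J') (h : v = X 0 * w) (hv : v = u * X 0 ^ ρ) : ∃ ρ', ρ = ρ' + 1 ∧ PP J' 0 ρ' := by
  rcases ρ with _ | ρ
  · exfalso
    apply hu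
    rw [pow_zero, mul_one] at hv
    rw [← hv, h]
    simp
  · refine ⟨ρ, rfl, u, hu, ?_⟩
    have : X 0 * w = X 0 * (u * X 0 ^ ρ) := by rw [← h, hv]; ring
    rwa [← mul_left_cancel₀ (X_ne_zero _) this]

theorem terminate [CharZero K] {ι : Type} (J : (ι → RK K) → Ideal (RK K)) (m0 : ℕ)
    (Q : (ι → RK K) → Prop) (hJ : ∀ h i, h i ∈ J h)
    (hsw : ∀ h, ∀ u ∈ J h, sw u ∈ J fun i => sw (h i))
    (hch : ∀ h h' d c, m0 ≤ d → (∀ i, ch c (h i) = X 0 ^ d * h' i) →
      ∀ u ∈ J h, ∃ w ∈ J h', ch c u = X 0 * w)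
    (base : ∀ h, (∃ i, h i ∉ mm K ^ m0) → Q h)
    (step : ∀ h d, m0 ≤ d → (∀ i, h i ∈ mm K ^ d) → (∃ i, h i ≠ 0) →
      (∀ c, ∃ h', (∀ i, ch c (h i) = X 0 ^ d * h' i) ∧ Q h') →
      (∀ c, ∃ h', (∀ i, ch c (sw (h i)) = X 0 ^ d * h' i) ∧ Q h') → Q h) (hm0 : 1 ≤ m0)
    (h : ι → RK K) (hne : ∃ i, h i ≠ 0) (hx : ∃ ρ, PP (J h) 0 ρ) (hy : ∃ ρ, PP (J h) 1 ρ) :
    Q h := by
  have wk : ∀ (h : ι → RK K) d c, (∀ i, h i ∈ mm K ^ d) → (∃ i, h i ∉ mm K ^ (d + 1)) →
      ∃ h' : ι → RK K, (∀ i, ch c (h i) = X 0 ^ d * h' i) ∧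
        ∃ i, ¬ Polynomial.X ^ (d + 1) ∣ e0 (h' i) := by
    intro h d c h1 ⟨i, hi⟩
    choose h' h2 h3 using fun i => weak (h1 i) c
    exact ⟨h', h2, i, h3 i hi⟩
  have gen : ∀ (h : ι → RK K) (ρ σ : ℕ), (∃ i, h i ≠ 0) → PP (J h) 0 ρ → PP (J h) 1 σ →
      (∀ d (h' : ι → RK K) ρ', (∀ i, h i ∈ mm K ^ d) →
        (∃ i, ¬ Polynomial.X ^ (d + 1) ∣ e0 (h' i)) → PP (J h') 0 ρ' →
        (ρ' < ρ ∨ ∀ i, ch 0 (sw (h i)) = X 0 ^ d * h' i) → Q h') → Q h := by
    intro h ρ σ hne ⟨u, hu, hρ⟩ ⟨v, hv, hσ⟩ IH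
    obtain ⟨d, h1, h2⟩ := exists_order h hne
    rcases lt_or_ge d m0 with hd | hd
    · obtain ⟨i, hi⟩ := h2
      exact base h ⟨i, fun h3 => hi (Ideal.pow_le_pow_right hd h3)⟩
    refine step h d hd h1 hne (fun c => ?_) (fun c => ?_)
    · obtain ⟨h', h3, h4⟩ := wk h d c h1 h2
      obtain ⟨w, hw, e⟩ := hch h h' d c hd h3 _ hρ
      obtain ⟨ρ', e', h5⟩ := PP_step (u := ch c u) (ρ := ρ) (by simpa using hu) hw e (by simp)
      exact ⟨h', h3, IH d h' ρ' h1 h4 h5 (Or.inl (by omega))⟩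
    · obtain ⟨h', h3, h4⟩ := wk (fun i => sw (h i)) d c (fun i => sw_mem (h1 i)) (by
        obtain ⟨i, hi⟩ := h2
        exact ⟨i, fun h3 => hi (by simpa using sw_mem h3)⟩)
      by_cases hc : c = 0
      · subst hc
        obtain ⟨w, hw, e⟩ := hch _ h' d 0 hd h3 _ (hsw h _ hσ)
        obtain ⟨ρ', -, h5⟩ := PP_step (u := ch 0 (sw v)) (ρ := σ) (by simpa using hv) hw e
          (by simp)
        exact ⟨h', h3, IH d h' ρ' h1 h4 h5 (Or.inr h3)⟩
      · obtain ⟨w, hw, e⟩ := hch _ h' d c hd h3 _ (hsw h _ hρ)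
        obtain ⟨ρ', e', h5⟩ := PP_step (u := ch c (sw u) * (X 1 + C c) ^ ρ) (ρ := ρ)
          (by simp [hu, hc]) hw e (by simp [mul_pow]; ring)
        exact ⟨h', h3, IH d h' ρ' h1 h4 h5 (Or.inl (by omega))⟩
  have main : ∀ (m ρ : ℕ) (h : ι → RK K), (∃ i, ¬ Polynomial.X ^ (m + 1) ∣ e0 (h i)) →
      PP (J h) 0 ρ → Q h := by
    intro m
    induction m using Nat.strong_induction_on with
    | _ m ihm =>
    intro ρ
    induction ρ using Nat.strong_induction_on with
    | _ ρ ihρ =>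
    rintro h ⟨i, hi⟩ hρ
    have h0 : e0 (h i) ≠ 0 := fun h0 => hi (by simp [h0])
    obtain ⟨σ, hσ⟩ := PP_y (hJ h i) h0 hρ
    refine gen h ρ σ ⟨i, fun h1 => h0 (by simp [h1])⟩ hρ hσ fun d h' ρ' h1 h2 h3 h4 => ?_
    have hdm : d ≤ m := by
      by_contra hlt
      exact hi (pow_dvd_map (e0 (K := K) : RK K →+* Polynomial K) Polynomial.X (by simp) (by simp)
        (Ideal.pow_le_pow_right (m := m + 1) (n := d) (by omega) (h1 i)))
    rcases lt_or_eq_of_le hdm with hd | rfl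
    · exact ihm d hd ρ' h' h2 h3
    rcases h4 with h4 | h4
    · exact ihρ ρ' h4 h' h2 h3
    · refine base h' ⟨i, fun h5 => hi ?_⟩
      have h6 := mem_one_iff.mp (Ideal.pow_le_pow_right hm0 h5)
      rw [← e1_sw, ← e1_ch, h4 i, map_mul, map_pow, e1_X0, pow_succ]
      refine mul_dvd_mul_left _ ?_
      rw [Polynomial.X_dvd_iff, Polynomial.coeff_zero_eq_eval_zero, eval_e1, h6]
  obtain ⟨ρ, hρ⟩ := hx
  obtain ⟨σ, hσ⟩ := hy
  exact gen h ρ σ hne hρ hσ fun d h' ρ' _ h2 h3 _ => main d ρ' h' h2 h3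

/-- an ideal not contained in a principal prime contains powers of the variables locally -/
theorem PP_of_coprime (J : Ideal (RK K)) (hJ : ∀ q : RK K, Prime q → ¬ J ≤ Ideal.span {q})
    (j : Fin 2) : ∃ ρ, PP J j ρ := by
  have key : ∃ a : Polynomial K, a ≠ 0 ∧ Polynomial.aeval (X j : RK K) a ∈ J := by
    by_contra hn
    push Not at hn
    obtain ⟨p, hp, hJp, hd⟩ := J.exists_le_prime_disjoint
      ((nonZeroDivisors (Polynomial K)).map (Polynomial.aeval (X j : RK K)))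
      (Set.disjoint_left.mpr (by
        rintro _ h1 ⟨a, ha, rfl⟩
        exact hn a (nonZeroDivisors.ne_zero ha) h1))
    have hp0 : p ≠ ⊥ := fun h => hJ (X 0) X_prime (hJp.trans (h ▸ bot_le))
    obtain ⟨q, hqp, hq⟩ := hp.exists_mem_prime_of_ne_bot hp0
    have hq' : (Ideal.span {q}).IsPrime := (Ideal.span_singleton_prime hq.ne_zero).mpr hq
    have h1 : (⊥ : Ideal (RK K)) < Ideal.span {q} :=
      bot_lt_iff_ne_bot.mpr (by simpa using hq.ne_zero)
    have h2 : Ideal.span {q} < p :=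
      lt_of_le_of_ne ((Ideal.span_singleton_le_iff_mem _).mpr hqp) fun h => hJ q hq (h ▸ hJp)
    have hmax : p.IsMaximal := by
      obtain ⟨M, hM, hpM⟩ := p.exists_le_maximal hp.ne_top
      rcases lt_or_eq_of_le hpM with h3 | h3
      · exfalso
        have a1 := Ideal.height_add_one_le_of_lt_of_isPrime h1
        have a2 := Ideal.height_add_one_le_of_lt_of_isPrime h2
        have a3 := Ideal.height_add_one_le_of_lt_of_isPrime h3
        have a4 := M.height_le_ringKrullDim_of_ne_top hM.ne_top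
        rw [MvPolynomial.ringKrullDim_of_isNoetherianRing, ringKrullDim_eq_zero_of_field] at a4
        have a5 : (3 : ℕ∞) ≤ M.height := by
          calc (3 : ℕ∞) = 0 + 1 + 1 + 1 := by norm_num
            _ ≤ (⊥ : Ideal (RK K)).height + 1 + 1 + 1 := by gcongr; exact zero_le
            _ ≤ (Ideal.span {q}).height + 1 + 1 := by gcongr
            _ ≤ p.height + 1 := by gcongr
            _ ≤ _ := a3
        have a6 : ((3 : ℕ∞) : WithBot ℕ∞) ≤ 0 + (Nat.card (Fin 2) : ℕ) :=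
          (WithBot.coe_le_coe.mpr a5).trans a4
        simp only [Nat.card_eq_fintype_card, Fintype.card_fin, zero_add] at a6
        exact absurd a6 (by decide)
      · exact h3 ▸ hM
    let _ := Ideal.Quotient.field p
    have _ := finite_of_finite_type_of_isJacobsonRing K (RK K ⧸ p)
    obtain ⟨a, ha, ha'⟩ := Algebra.IsAlgebraic.isAlgebraic (R := K)
      (Ideal.Quotient.mkₐ K p (X j))
    rw [Polynomial.aeval_algHom_apply] at ha'
    exact Set.disjoint_left.mp hd (Ideal.Quotient.eq_zero_iff_mem.mp ha')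
      ⟨a, mem_nonZeroDivisors_of_ne_zero ha, rfl⟩
  obtain ⟨a, ha, haJ⟩ := key
  obtain ⟨p, hp, hp'⟩ := Polynomial.exists_eq_pow_rootMultiplicity_mul_and_not_dvd _ ha 0
  refine ⟨Polynomial.rootMultiplicity 0 a, Polynomial.aeval (X j : RK K) p, ?_, ?_⟩
  · rw [cc_aeval]
    exact fun h => hp' (Polynomial.dvd_iff_isRoot.mpr h)
  · rw [hp] at haJ
    simpa [mul_comm] using haJ

end Pool.Agent.MP_5d9b3c_ag.H21
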